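import Pool.Agent.Helper27.EV2.Rec

/-!
# EV2, B13: the flow is linear in the values of the births, the matrix of `Q`
-/

set_option autoImplicit false

namespace Pool.Agent.Helper59.EV2

open Pool.Agent.Helper27.EV2 Pool.Agent.Helper85.Exp

variable {R : Type} [CommRing R] {W : Word}

theorem fl_sum {ι : Type} (s : Finset ι) (c : ι → R) (v : ι → ℕ → R) (t ti : R) (a : St) (k : ℕ) :
    fl t ti a k (fun j => ∑ x ∈ s, c x * v x j) = fun j => ∑ x ∈ s, c x * fl t ti a k (v x) j := by
  funext j
  cases a
  · simp only [fl, smul_eq_mul]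
    split_ifs
    · rw [Finset.mul_sum]
      exact Finset.sum_congr rfl fun x _ => by ring
    · rw [Finset.mul_sum, ← Finset.sum_add_distrib]
      exact Finset.sum_congr rfl fun x _ => by ring
    · rfl
  · simp only [fl, smul_eq_mul]
    split_ifs
    · rw [Finset.mul_sum, ← Finset.sum_add_distrib]
      exact Finset.sum_congr rfl fun x _ => by ring
    · rw [Finset.mul_sum]
      exact Finset.sum_congr rfl fun x _ => by ring
    · rfl
  · rfl

theorem frun_sum {ι : Type} (s : Finset ι) (c : ι → R) (v : ι → ℕ → R) (t ti : R) (σ : ℕ → St) (w : List ℕ) (i : ℕ) :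
    frun t ti σ w (fun j => ∑ x ∈ s, c x * v x j) i = fun j => ∑ x ∈ s, c x * frun t ti σ w (v x) i j := by
  induction i with
  | zero => rfl
  | succ i ih =>
    simp only [frun]
    rw [ih, fl_sum]

theorem fext_sum {ι : Type} (s : Finset ι) (c : ι → R) (v : ι → ℕ → R) (e : Ext) (b : ℕ) (ξ : ℕ → R) (g : ι → ℕ → R)
    (hb : (∃ k d, e = .mx k d) → ξ b = ∑ x ∈ s, c x * g x b) :
    fext e b ξ 0 (fun j => ∑ x ∈ s, c x * v x j) = fun j => ∑ x ∈ s, c x * fext e b (g x) 0 (v x) j := by
  funext j
  cases e with
  | mx k d =>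
    have h := hb ⟨k, d, rfl⟩
    simp only [fext, ins, Pi.zero_apply]
    split_ifs <;> first | rfl | exact h | simp
  | mn k =>
    simp only [fext, del]
    split_ifs <;> rfl

theorem filter_lt {r : ℕ} (hr : r < W.length) (p : Row → Bool) (hp : p (row W r) = true) :
    ((W.take r).filter p).length < (W.filter p).length := by
  have h1 : W.take (r + 1) = W.take r ++ [row W r] := by
    rw [List.take_add_one]
    congr 1
    simp [row, List.getD, List.getElem?_eq_getElem hr]
  have h2 : ((W.take (r + 1)).filter p).length = ((W.take r).filter p).length + 1 := by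
    rw [h1, List.filter_append, List.length_append]
    simp [hp]
  have h3 : ((W.take (r + 1)).filter p).length ≤ (W.filter p).length :=
    ((List.take_sublist (r + 1) W).filter _).length_le
  omega

theorem nb_lt {r : ℕ} (hr : r < W.length) {k : ℕ} {d : Bool} (h : (row W r).e = .mx k d) : nb W r < maxima W := by
  unfold nb maxima
  exact filter_lt hr _ (by simp [h])

theorem flow_sum (t ti : R) (σ : ℕ → ℕ → St) (ξ : ℕ → R) {r : ℕ} (hr : r ≤ W.length) :
    flow W t ti σ ξ 0 r = fun l => ∑ j ∈ Finset.range (maxima W),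
      ξ j * flow W t ti σ (fun a => if a = j then (1 : R) else 0) 0 r l := by
  induction r with
  | zero =>
    funext l
    simp [flow]
  | succ r ih =>
    have h1 : ξ (nb W r) = ∑ j ∈ Finset.range (maxima W), ξ j * (fun a => if a = j then (1 : R) else 0) (nb W r) ∨
        ¬ ∃ k d, (row W r).e = .mx k d := by
      by_cases h : ∃ k d, (row W r).e = .mx k d
      · left
        obtain ⟨k, d, h⟩ := h
        have h2 := nb_lt (by omega : r < W.length) h
        simp [h2]
      · right; exact h
    simp only [flow]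
    rw [ih (by omega), fext_sum (Finset.range (maxima W)) ξ _ (row W r).e (nb W r) ξ
      (fun j a => if a = j then (1 : R) else 0) (fun h => h1.resolve_right (not_not.2 h)), frun_sum]

/-- B13 without the hypothesis `Ok W` -/
theorem Q_sum' (t ti : R) (σ : ℕ → ℕ → St) (ξ : ℕ → R) (i : ℕ) :
    Q W t ti σ ξ i = ∑ j : Fin (maxima W), ξ j * Q W t ti σ (fun a => if a = (j : ℕ) then (1 : R) else 0) i := by
  rw [Fin.sum_univ_eq_sum_range
    (fun j => ξ j * Q W t ti σ (fun a => if a = j then (1 : R) else 0) i) (maxima W)]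
  unfold Q
  simp only [Finset.mul_sum]
  rw [Finset.sum_comm]
  refine Finset.sum_congr rfl fun r hr => ?_
  have hr' : r ≤ W.length := (Finset.mem_range.1 hr).le
  cases (row W r).e with
  | mx k d => simp
  | mn k =>
    simp only
    split_ifs
    · rw [flow_sum t ti σ ξ hr']
    · simp
    · rw [flow_sum t ti σ ξ hr']
    · simp

set_option linter.unusedVariables false in
/-- B13: the matrix of `Q` -/
theorem Q_sum (hW : Ok W) (t ti : R) (σ : ℕ → ℕ → St) (ξ : ℕ → R) (i : ℕ) :
    Q W t ti σ ξ i = ∑ j : Fin (maxima W), ξ j * Q W t ti σ (fun a => if a = (j : ℕ) then (1 : R) else 0) i :=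
  Q_sum' t ti σ ξ i

end Pool.Agent.Helper59.EV2
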